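import Pool.Agent.helper81.DI.SpecB
import Pool.Agent.helper13.DD.IRF
import Pool.Agent.helper5.DD.INC
import Pool.Agent.helper5.DD.INT
import Pool.Agent.helper5.DD.INN
import Pool.Agent.helper5.DD.DVD

/-!
# di:B1: basic facts on irreducible characters
-/

set_option autoImplicit false

namespace Pool.Agent.DI

open Pool.Agent.helper58.DC

theorem B1_irr (H : Type) [Group H] : Irr H = Pool.Agent.helper49.Blk.Irr H := rfl

open Classical in
theorem B1 : B1_stmt := by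
  intro H _ _
  have hI := Pool.Agent.DD.IRF H
  have hD := Pool.Agent.DD.DVD Pool.Agent.DD.INC
    (Pool.Agent.DD.INN Pool.Agent.DD.INT Pool.Agent.DD.IRF) Pool.Agent.DD.IRF H
  have hN := Pool.Agent.DD.INC H
  refine ⟨hI.1, ?_⟩
  intro χ hχ
  obtain ⟨⟨n, hn, hn'⟩, hc⟩ := hI.2 χ hχ
  refine ⟨⟨n, hn, hn', hD χ hχ n hn'⟩, hc, hN χ hχ, ?_⟩
  intro ψ hψ
  have := Fintype.ofFinite H
  rw [finsum_eq_sum_of_fintype]
  obtain ⟨V, _, _, _, ρ, hρ, hρ'⟩ := hχ
  obtain ⟨W, _, _, _, σ, hσ, hσ'⟩ := hψ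
  have h := Pool.Agent.helper49.Blk.orth ρ σ hρ hσ
  rw [hρ', hσ'] at h
  split_ifs with he
  · exact h.2 he
  · exact h.1 he

end Pool.Agent.DI
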