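import Pool.Agent.helper81.DI.SpecB
import Pool.Agent.helper13.DD.IRF
import Pool.Agent.helper50.DD.CPL

/-!
# di:B3: restriction of a character to a subgroup
-/

set_option autoImplicit false

namespace Pool.Agent.DI

open Pool.Agent.helper58.DC

theorem B3_bij (H : Type) [Group H] (L : Subgroup H) :
    Set.BijOn (fun (ψ : H → ℂ) (l : L) => ψ (l : H)) (IrrOn L) (Irr L) := by
  classical
  refine ⟨fun ψ hψ => hψ.2, ?_, ?_⟩
  · intro ψ hψ ψ' hψ' he
    funext x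
    by_cases hx : x ∈ L
    · exact congrFun he ⟨x, hx⟩
    · rw [hψ.1 x hx, hψ'.1 x hx]
  · intro ψ hψ
    refine ⟨fun x => if hx : x ∈ L then ψ ⟨x, hx⟩ else 0, ⟨?_, ?_⟩, ?_⟩
    · intro g hg
      exact dif_neg hg
    · have e : (fun h : L => (fun x : H => if hx : x ∈ L then ψ ⟨x, hx⟩ else 0) (h : H)) = ψ := by
        funext h
        have h1 : (h : H) ∈ L := h.2
        show (if hx : (h : H) ∈ L then ψ ⟨(h : H), hx⟩ else 0) = ψ h
        rw [dif_pos h1]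
      rw [e]
      exact hψ
    · funext h
      have h1 : (h : H) ∈ L := h.2
      show (if hx : (h : H) ∈ L then ψ ⟨(h : H), hx⟩ else 0) = ψ h
      rw [dif_pos h1]

theorem B3_grp (L : Type) [Group L] [Finite L] (V : Type) [AddCommGroup V] [Module ℂ V]
    [FiniteDimensional ℂ V] (ρ : Representation ℂ L V) :
    ∃ m : (L → ℂ) → ℕ, ∀ x, ρ.character x = ∑ᶠ ψ ∈ Irr L, (m ψ : ℂ) * ψ x := by
  classical
  have := Fintype.ofFinite L
  have hne : (Nat.card L : ℂ) ≠ 0 := by exact_mod_cast Nat.card_pos.ne'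
  have hinv : Invertible (Nat.card L : ℂ) := invertibleOfNonzero hne
  have hm : ∀ ψ : L → ℂ, ∃ n : ℕ, ψ ∈ Irr L →
      ∑ g : L, ρ.character g * ψ g⁻¹ = (Nat.card L : ℂ) * n := by
    intro ψ
    by_cases hψ : ψ ∈ Irr L
    · obtain ⟨W, _, _, _, τ, hτ, rfl⟩ := hψ
      refine ⟨Module.finrank ℂ (Representation.IntertwiningMap τ ρ), fun _ => ?_⟩
      rw [← Representation.card_inv_mul_sum_char_mul_char_eq_finrank, mul_inv_cancel_left₀ hne]
    · exact ⟨0, fun h => absurd h hψ⟩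
  choose m hm using hm
  obtain ⟨hfin, hirr⟩ := Pool.Agent.DD.IRF L
  refine ⟨m, ?_⟩
  have hF : (fun x => ρ.character x - ∑ ψ ∈ hfin.toFinset, (m ψ : ℂ) * ψ x) = 0 := by
    refine Pool.Agent.DD.CPL L _ ?_ ?_
    · intro g h
      show ρ.character (h * g * h⁻¹) - ∑ ψ ∈ hfin.toFinset, (m ψ : ℂ) * ψ (h * g * h⁻¹) =
        ρ.character g - ∑ ψ ∈ hfin.toFinset, (m ψ : ℂ) * ψ g
      rw [Representation.char_conj]
      congr 1
      refine Finset.sum_congr rfl fun ψ hψ => ?_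
      rw [(hirr ψ (hfin.mem_toFinset.1 hψ)).2 g h]
    · intro χ hχ
      have e1 : ∑ g : L, (ρ.character g - ∑ ψ ∈ hfin.toFinset, (m ψ : ℂ) * ψ g) * χ g⁻¹ =
          ∑ g : L, ρ.character g * χ g⁻¹ -
          ∑ ψ ∈ hfin.toFinset, (m ψ : ℂ) * ∑ g : L, ψ g * χ g⁻¹ := by
        have e2 : ∑ ψ ∈ hfin.toFinset, (m ψ : ℂ) * ∑ g : L, ψ g * χ g⁻¹ =
            ∑ g : L, ∑ ψ ∈ hfin.toFinset, (m ψ : ℂ) * ψ g * χ g⁻¹ := by
          rw [Finset.sum_comm]
          refine Finset.sum_congr rfl fun ψ _ => ?_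
          rw [Finset.mul_sum]
          refine Finset.sum_congr rfl fun g _ => ?_
          ring
        rw [e2, ← Finset.sum_sub_distrib]
        refine Finset.sum_congr rfl fun g _ => ?_
        rw [sub_mul, Finset.sum_mul]
      show ∑ g : L, (ρ.character g - ∑ ψ ∈ hfin.toFinset, (m ψ : ℂ) * ψ g) * χ g⁻¹ = 0
      rw [e1, hm χ hχ, Finset.sum_eq_single χ]
      · obtain ⟨W, _, _, _, τ, hτ, rfl⟩ := hχ
        rw [(Pool.Agent.helper49.Blk.orth τ τ hτ hτ).2 rfl]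
        ring
      · intro ψ hψ hne'
        obtain ⟨W, _, _, _, τ, hτ, rfl⟩ := hχ
        obtain ⟨U, _, _, _, σ, hσ, rfl⟩ := hfin.mem_toFinset.1 hψ
        rw [(Pool.Agent.helper49.Blk.orth σ τ hσ hτ).1 hne']
        ring
      · intro h
        exact absurd (hfin.mem_toFinset.2 hχ) h
  intro x
  have h1 := congrFun hF x
  have h2 : ρ.character x - ∑ ψ ∈ hfin.toFinset, (m ψ : ℂ) * ψ x = 0 := h1
  rw [sub_eq_zero] at h2
  rw [h2, ← finsum_mem_finset_eq_sum]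
  have h3 : ∀ ψ : L → ℂ, ψ ∈ (hfin.toFinset : Set (L → ℂ)) ↔ ψ ∈ Irr L := by
    intro ψ
    rw [Finset.mem_coe]
    exact hfin.mem_toFinset
  have h4 : (hfin.toFinset : Set (L → ℂ)) = Irr L := Set.ext h3
  exact finsum_mem_congr h4 (fun _ _ => rfl)

theorem B3 : B3_stmt := by
  classical
  intro H _ _ L χ hχ
  obtain ⟨V, _, _, _, ρ, hρ, rfl⟩ := hχ
  obtain ⟨m, hm⟩ := B3_grp L V (ρ.comp L.subtype)
  refine ⟨fun ψ => m (fun l : L => ψ (l : H)), ?_⟩
  intro x hx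
  have h1 := hm ⟨x, hx⟩
  have h2 : Representation.character (ρ.comp L.subtype : Representation ℂ L V) ⟨x, hx⟩ = ρ.character x := rfl
  rw [← h2, h1]
  symm
  refine finsum_mem_eq_of_bijOn (fun (ψ : H → ℂ) (l : L) => ψ (l : H)) (B3_bij H L) ?_
  intro ψ _
  rfl

end Pool.Agent.DI
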