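import Pool.Agent.helper81.DI.SpecB

/-!
# di:B8: inner products of restrictions to `K`
-/

set_option autoImplicit false

namespace Pool.Agent.DI

open Pool.Agent.helper58.DC

open Classical in
theorem B8 (hB1 : B1_stmt) (hB6 : B6_stmt) : B8_stmt := by
  intro H _ _ K Λ _ _ l hcard h1 h0 φ hφ φ' hφ'
  have := Fintype.ofFinite H
  have := Fintype.ofFinite Λ
  have hΛ : (Nat.card Λ : ℂ) ≠ 0 := by exact_mod_cast Nat.card_pos.ne'
  -- the sum over `a`
  have hs : ∀ x : H, ∑ a : Λ, ((l a x : ℂˣ) : ℂ) = if x ∈ K then (Nat.card Λ : ℂ) else 0 := by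
    intro x
    split_ifs with hx
    · have h2 : ∀ a ∈ (Finset.univ : Finset Λ), ((l a x : ℂˣ) : ℂ) = 1 := by
        intro a _
        rw [h1 a x hx]
        simp
      rw [Finset.sum_congr rfl h2]
      simp [Nat.card_eq_fintype_card]
    · have h2 := h0 x hx
      rw [finsum_eq_sum_of_fintype] at h2
      exact h2
  have hL : ∑ᶠ x ∈ (K : Set H), φ x * φ' x⁻¹ = ∑ x : H, if x ∈ K then φ x * φ' x⁻¹ else 0 := by
    rw [finsum_eq_sum_of_fintype]
    refine Finset.sum_congr rfl fun x _ => ?_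
    by_cases hx : x ∈ K
    · rw [if_pos hx]
      have hx' : x ∈ (K : Set H) := hx
      simp [hx]
    · rw [if_neg hx]
      simp [hx]
  have hinner : ∀ a : Λ, ∑ x : H, (((l a x : ℂˣ) : ℂ) * φ x) * φ' x⁻¹ =
      if (∀ x, ((l a x : ℂˣ) : ℂ) * φ x = φ' x) then (Nat.card H : ℂ) else 0 := by
    intro a
    have h2 := hB6 H φ hφ (l a)
    have h3 := ((hB1 H).2 _ h2).2.2.2 φ' hφ'
    rw [finsum_eq_sum_of_fintype] at h3
    rw [h3]
    by_cases he : ∀ x, ((l a x : ℂˣ) : ℂ) * φ x = φ' x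
    · rw [if_pos he, if_pos (funext he)]
    · rw [if_neg he, if_neg (fun h => he (fun x => congrFun h x))]
  have hmain : (Nat.card Λ : ℂ) * ∑ᶠ x ∈ (K : Set H), φ x * φ' x⁻¹ =
      (Nat.card H : ℂ) * Nat.card {a : Λ // ∀ x, ((l a x : ℂˣ) : ℂ) * φ x = φ' x} := by
    rw [hL, Finset.mul_sum]
    have e1 : ∀ x ∈ (Finset.univ : Finset H),
        (Nat.card Λ : ℂ) * (if x ∈ K then φ x * φ' x⁻¹ else 0) =
        ∑ a : Λ, (((l a x : ℂˣ) : ℂ) * φ x) * φ' x⁻¹ := by
      intro x _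
      have e2 : ∑ a : Λ, (((l a x : ℂˣ) : ℂ) * φ x) * φ' x⁻¹ =
          (∑ a : Λ, ((l a x : ℂˣ) : ℂ)) * (φ x * φ' x⁻¹) := by
        rw [Finset.sum_mul]
        refine Finset.sum_congr rfl fun a _ => ?_
        ring
      rw [e2, hs x]
      split_ifs
      · rfl
      · simp
    rw [Finset.sum_congr rfl e1, Finset.sum_comm, Finset.sum_congr rfl (fun a _ => hinner a)]
    rw [← Finset.sum_filter, Finset.sum_const, nsmul_eq_mul, Nat.card_eq_fintype_card (α := {a : Λ // _}),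
      Fintype.card_subtype, mul_comm]
  have hH : (Nat.card H : ℂ) = (Nat.card Λ : ℂ) * (Nat.card K : ℂ) := by
    rw [← hcard]
    push_cast
    rfl
  rw [hH, mul_assoc] at hmain
  exact mul_left_cancel₀ hΛ hmain

end Pool.Agent.DI
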