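import Pool.Agent.helper81.DI.SpecC
import Pool.Agent.helper13.DD.IRF
import Pool.Agent.helper5.DD.INT
import Pool.Agent.helper50.DD.CPL

/-!
# di:C8: every homomorphism from the centre to `O / M` is a central character of `Irr Γ`
-/

set_option autoImplicit false

namespace Pool.Agent.DI

open Pool.Agent.helper58.DC

section

variable {Γ : Type} [Group Γ] [Finite Γ]

open Classical in
/-- the unit of the group ring -/
noncomputable def C8_one (Γ : Type) [Group Γ] : Γ → ℂ := fun x => if x = 1 then 1 else 0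

omit [Finite Γ] in
open Classical in
theorem C8_one_ZO (c : ℂ) (hc : IsIntegral ℤ c) : IsZO (fun x => c * C8_one Γ x) := by
  constructor
  · intro x y
    show c * (if y * x * y⁻¹ = 1 then (1 : ℂ) else 0) = c * (if x = 1 then (1 : ℂ) else 0)
    have h : y * x * y⁻¹ = 1 ↔ x = 1 := by
      constructor
      · intro h
        have h2 : y * x = y := by
          have := congrArg (fun t => t * y) h
          simpa using this
        simpa using h2
      · rintro rfl
        simp
    by_cases hx : x = 1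
    · rw [if_pos hx, if_pos (h.2 hx)]
    · rw [if_neg hx, if_neg (fun h' => hx (h.1 h'))]
  · intro x
    show IsIntegral ℤ (c * (if x = 1 then (1 : ℂ) else 0))
    split_ifs
    · rw [mul_one]
      exact hc
    · rw [mul_zero]
      exact isIntegral_zero

omit [Finite Γ] in
theorem C8_ZO_sub (z w : Γ → ℂ) (hz : IsZO z) (hw : IsZO w) : IsZO (fun x => z x - w x) := by
  constructor
  · intro x y
    show z _ - w _ = z x - w x
    rw [hz.1, hw.1]
  · intro x
    exact (hz.2 x).sub (hw.2 x)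

theorem C8_cc_sub (ψ z w : Γ → ℂ) : cc ψ (fun x => z x - w x) = cc ψ z - cc ψ w := by
  have := Fintype.ofFinite Γ
  unfold cc
  rw [finsum_eq_sum_of_fintype, finsum_eq_sum_of_fintype, finsum_eq_sum_of_fintype, ← sub_div,
    ← Finset.sum_sub_distrib]
  congr 1
  refine Finset.sum_congr rfl fun x _ => ?_
  ring

theorem C8_cc_one (ψ : Γ → ℂ) (h : ψ 1 ≠ 0) (c : ℂ) : cc ψ (fun x => c * C8_one Γ x) = c := by
  classical
  have := Fintype.ofFinite Γ
  unfold cc C8_one
  rw [finsum_eq_sum_of_fintype]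
  have h2 : ∑ x : Γ, c * (if x = 1 then 1 else 0) * ψ x = c * ψ 1 := by
    rw [Finset.sum_eq_single 1]
    · simp
    · intro b _ hb
      rw [if_neg hb]
      ring
    · intro hb
      exact absurd (Finset.mem_univ _) hb
  rw [h2, mul_div_assoc, div_self h, mul_one]

end

open Classical in
theorem C8 (hC1 : C1_stmt) (hC3 : C3_stmt) (hC4 : C4_stmt) : C8_stmt := by
  intro Γ _ _ p _ M hM hp ψ hψ
  have hFt := Fintype.ofFinite Γ
  by_contra hcon
  push Not at hcon
  obtain ⟨c1, c2, c3, c4, c5, c6, c7, -, -, -⟩ := hC1 p M hM hp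
  obtain ⟨-, d2, -, -⟩ := hC3 Γ
  obtain ⟨-, e2, e3⟩ := hC4 Γ
  obtain ⟨hfin, hirr⟩ := Pool.Agent.DD.IRF Γ
  have hne : ∀ χ ∈ Irr Γ, χ 1 ≠ 0 := by
    intro χ hχ
    obtain ⟨n, hn, hn'⟩ := (hirr χ hχ).1
    rw [hn']
    exact_mod_cast hn.ne'
  -- for every character an element
  have step1 : ∀ χ ∈ Irr Γ, ∃ z, IsZO z ∧ cc χ z = 0 ∧ ¬ Mcong M (cc ψ z) 0 := by
    intro χ hχ
    have h1 := hcon χ hχ
    have h2 : ∃ g, ¬ Mcong M (omega ψ g) (omega χ g) := by
      by_contra h3
      push Not at h3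
      exact h1 h3
    obtain ⟨g, hg⟩ := h2
    have hint : IsIntegral ℤ (omega χ g) := by
      have := Pool.Agent.DD.INT Γ χ hχ (conjugatesOf g) (by
        intro x hx h
        have hx' : IsConj g x := hx
        exact (hx'.trans (isConj_iff.2 ⟨h, rfl⟩) : IsConj g (h * x * h⁻¹)))
      exact this
    obtain ⟨w1, w2⟩ := d2 ψ g
    obtain ⟨v1, -⟩ := d2 χ g
    refine ⟨fun x => (if x ∈ conjugatesOf g then (1 : ℂ) else 0) - omega χ g * C8_one Γ x,
      C8_ZO_sub _ _ w2 (C8_one_ZO _ hint), ?_, ?_⟩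
    · rw [C8_cc_sub, ← v1, C8_cc_one _ (hne χ hχ), sub_self]
    · rw [C8_cc_sub, ← w1, C8_cc_one _ hψ.ne]
      intro h
      apply hg
      have h5 := (c4 _ _ _ _ h (c1 (omega χ g))).1
      rw [sub_add_cancel, zero_add] at h5
      exact h5
  have step2 : ∀ T : Finset (Γ → ℂ), (∀ χ ∈ T, χ ∈ Irr Γ) →
      ∃ z, IsZO z ∧ (∀ χ ∈ T, cc χ z = 0) ∧ ¬ Mcong M (cc ψ z) 0 := by
    intro T
    induction T using Finset.induction_on with
    | empty =>
      intro _
      refine ⟨fun x => 1 * C8_one Γ x, C8_one_ZO 1 isIntegral_one, by simp, ?_⟩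
      rw [C8_cc_one _ hψ.ne]
      intro h
      have h5 := (c7 1).1 (by simpa using h)
      exact (Fact.out : p.Prime).one_lt.ne' (Nat.dvd_one.1 h5)
    | insert a s ha ih =>
      intro hT
      obtain ⟨z, hz, hz0, hz1⟩ := ih (fun χ hχ => hT χ (Finset.mem_insert_of_mem hχ))
      obtain ⟨w, hw, hw0, hw1⟩ := step1 a (hT a (Finset.mem_insert_self _ _))
      refine ⟨cv z w, (e2 z w hz hw).1, ?_, ?_⟩
      · intro χ hχ
        rw [e3 χ (hT χ hχ) z w hz]
        rcases Finset.mem_insert.1 hχ with h | h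
        · rw [h, hw0, mul_zero]
        · rw [hz0 χ h, zero_mul]
      · intro h
        have h5 := c3 _ _ _ (c2 _ _ (hψ.mul z w hz hw)) h
        rcases c6 _ _ (hψ.int z hz) (hψ.int w hw) h5 with h6 | h6
        · exact hz1 h6
        · exact hw1 h6
  obtain ⟨z, hz, hz0, hz1⟩ := step2 hfin.toFinset (fun χ hχ => hfin.mem_toFinset.1 hχ)
  have hz2 : (fun x => z x⁻¹) = 0 := by
    refine Pool.Agent.DD.CPL Γ (fun x => z x⁻¹) ?_ ?_
    · intro g h
      show z (h * g * h⁻¹)⁻¹ = z g⁻¹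
      have h1 : (h * g * h⁻¹)⁻¹ = h * g⁻¹ * h⁻¹ := by group
      rw [h1, hz.1]
    · intro χ hχ
      have h1 := hz0 χ (hfin.mem_toFinset.2 hχ)
      unfold cc at h1
      rw [finsum_eq_sum_of_fintype, div_eq_zero_iff] at h1
      rcases h1 with h1 | h1
      · rw [← h1]
        exact Fintype.sum_equiv (Equiv.inv Γ) _ _ (fun x => rfl)
      · exact absurd h1 (hne χ hχ)
  apply hz1
  have hz3 : z = fun x => 0 * C8_one Γ x := by
    funext x
    have := congrFun hz2 x⁻¹
    simp only [inv_inv, Pi.zero_apply] at this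
    rw [this, zero_mul]
  rw [hz3, C8_cc_one _ hψ.ne]
  exact c1 0

end Pool.Agent.DI
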